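import Pool.Agent.helper84.QI.Spec

/-!
# Row qi:FPR (MP_fd6eef_al): the factors
-/

set_option autoImplicit false

namespace Pool.Agent.QI

theorem FPR_nor {M : Type} [Group M] (T : Set (Subgroup M)) (h : ∀ K ∈ T, K.Normal) : (sInf T).Normal := by
  refine ⟨fun n hn g => ?_⟩
  rw [Subgroup.mem_sInf] at hn ⊢
  intro K hK
  exact (h K hK).conj_mem n (hn K hK) g

theorem FPR_facnor {M : Type} [Group M] {S : Set (Subgroup M)} (hS : KS S) (K : Subgroup M) : (fac S K).Normal :=
  FPR_nor _ fun K' hK' => hS.nor K' hK'.1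

theorem FPR_le {M : Type} [Group M] {S : Set (Subgroup M)} {K K' : Subgroup M} (hK' : K' ∈ S) (h : K' ≠ K) :
    fac S K ≤ K' :=
  sInf_le ⟨hK', h⟩

theorem FPR_bot {M : Type} [Group M] {S : Set (Subgroup M)} (hS : KS S) (K : Subgroup M) : ∀ x ∈ fac S K, x ∈ K → x = 1 := by
  intro x hx hxK
  have h : x ∈ sInf S := by
    rw [Subgroup.mem_sInf]
    intro K' hK'
    by_cases h : K' = K
    · rw [h]; exact hxK
    · exact FPR_le hK' h hx
  rw [hS.bot] at h
  exact Subgroup.mem_bot.1 h

theorem FPR_dec {M : Type} [Group M] (A K : Subgroup M) [K.Normal] (h : A ⊔ K = ⊤) (x : M) :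
    ∃ a ∈ A, ∃ k ∈ K, x = a * k := by
  have hx : x ∈ A ⊔ K := by rw [h]; exact Subgroup.mem_top x
  obtain ⟨a, ha, k, hk, e⟩ := Subgroup.mem_sup_of_normal_right.1 hx
  exact ⟨a, ha, k, hk, e.symm⟩

theorem FPR_com {M : Type} [Group M] {S : Set (Subgroup M)} (hS : KS S) {K : Subgroup M} (hK : K ∈ S) :
    ∀ x ∈ fac S K, ∀ y ∈ K, x * y = y * x := by
  intro x hx y hy
  have hL := FPR_facnor hS K
  have hKn := hS.nor K hK
  have h1 : x * y * x⁻¹ * y⁻¹ ∈ K := K.mul_mem (hKn.conj_mem y hy x) (K.inv_mem hy)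
  have h2 : x * y * x⁻¹ * y⁻¹ ∈ fac S K := by
    have h3 := (fac S K).mul_mem hx (hL.conj_mem _ ((fac S K).inv_mem hx) y)
    have e : x * y * x⁻¹ * y⁻¹ = x * (y * x⁻¹ * y⁻¹) := by group
    rw [e]; exact h3
  have h3 := FPR_bot hS K _ h2 h1
  have e : x * y * x⁻¹ * y⁻¹ * (y * x) = x * y := by group
  rw [h3, one_mul] at e
  exact e.symm

theorem FPR (hFNK : FNK_stmt) : FPR_stmt := by
  intro M _ _ S hS hfi
  have hnot := hFNK M S hS
  -- (1)
  have hsup : ∀ K ∈ S, fac S K ⊔ K = ⊤ := by
    intro K hK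
    have hL := FPR_facnor hS K
    have hKn := hS.nor K hK
    have hn : (fac S K ⊔ K).Normal := inferInstance
    rcases hS.max K hK _ hn le_sup_right with h | h
    · have h1 : fac S K ≤ fac S K ⊔ K := le_sup_left
      rw [h] at h1
      exact absurd h1 (hnot K hK)
    · exact h
  refine ⟨fun K hK => ⟨?_, ?_, ?_⟩, ?_, ?_, ?_⟩
  · -- simple
    have hL := FPR_facnor hS K
    have hKn := hS.nor K hK
    have hnt : Nontrivial (fac S K) := by
      rw [Subgroup.nontrivial_iff_ne_bot]
      intro h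
      exact hnot K hK (by rw [h]; exact bot_le)
    refine { exists_pair_ne := hnt.exists_pair_ne, eq_bot_or_eq_top_of_normal := ?_ }
    intro H hH
    have hAL : H.map (fac S K).subtype ≤ fac S K := Subgroup.map_subtype_le H
    have hA : (H.map (fac S K).subtype).Normal := by
      refine ⟨fun n hn g => ?_⟩
      obtain ⟨h, hh, rfl⟩ := hn
      obtain ⟨l, hl, k, hk, rfl⟩ := FPR_dec _ _ (hsup K hK) g
      have h1 := hH.conj_mem h hh ⟨l, hl⟩
      refine ⟨_, h1, ?_⟩
      have h2 := FPR_com hS hK (h : M) h.2 k hk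
      show l * (h : M) * l⁻¹ = l * k * (h : M) * (l * k)⁻¹
      rw [mul_assoc l k, ← h2, mul_inv_rev]
      group
    have hn : (H.map (fac S K).subtype ⊔ K).Normal := inferInstance
    rcases hS.max K hK _ hn le_sup_right with h | h
    · left
      rw [eq_bot_iff]
      intro x hx
      have h1 : (x : M) ∈ K :=
        h.le (Subgroup.mem_sup_left ⟨x, hx, rfl⟩)
      have h2 := FPR_bot hS K (x : M) x.2 h1
      rw [Subgroup.mem_bot]
      exact Subtype.ext h2
    · right
      rw [eq_top_iff]
      intro x _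
      obtain ⟨a, ha, k, hk, e⟩ := FPR_dec _ _ h (x : M)
      have h1 : k = 1 := by
        refine FPR_bot hS K k ?_ hk
        have h2 : k = a⁻¹ * (x : M) := by rw [e]; group
        rw [h2]
        exact (fac S K).mul_mem ((fac S K).inv_mem (hAL ha)) x.2
      rw [h1, mul_one] at e
      obtain ⟨y, hy, hya⟩ := ha
      have h3 : x = y := by
        apply Subtype.ext
        rw [e, ← hya]
        rfl
      rw [h3]
      exact hy
  · -- infinite
    by_contra hfin
    rw [not_infinite_iff_finite] at hfin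
    have hKn := hS.nor K hK
    have hq : Function.Surjective fun l : fac S K => (QuotientGroup.mk (l : M) : M ⧸ K) := by
      intro q
      obtain ⟨g, rfl⟩ := QuotientGroup.mk_surjective q
      obtain ⟨l, hl, k, hk, rfl⟩ := FPR_dec _ _ (hsup K hK) g
      refine ⟨⟨l, hl⟩, ?_⟩
      show (QuotientGroup.mk l : M ⧸ K) = QuotientGroup.mk (l * k)
      rw [QuotientGroup.eq]
      have e : l⁻¹ * (l * k) = k := by group
      rw [e]
      exact hk
    have h1 : Finite (M ⧸ K) := Finite.of_surjective _ hq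
    exact hS.top K hK (hfi K Subgroup.finiteIndex_of_finite_quotient)
  · -- finitely generated
    have hKn := hS.nor K hK
    have hb : Function.Bijective ((QuotientGroup.mk' K).comp (fac S K).subtype) := by
      constructor
      · rw [injective_iff_map_eq_one]
        intro x hx
        have h1 : (x : M) ∈ K := (QuotientGroup.eq_one_iff (x : M)).1 hx
        exact Subtype.ext (FPR_bot hS K (x : M) x.2 h1)
      · intro q
        obtain ⟨g, rfl⟩ := QuotientGroup.mk_surjective q
        obtain ⟨l, hl, k, hk, rfl⟩ := FPR_dec _ _ (hsup K hK) g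
        refine ⟨⟨l, hl⟩, ?_⟩
        show (QuotientGroup.mk l : M ⧸ K) = QuotientGroup.mk (l * k)
        rw [QuotientGroup.eq]
        have e : l⁻¹ * (l * k) = k := by group
        rw [e]
        exact hk
    have e := MulEquiv.ofBijective _ hb
    have hs : Function.Surjective (e.symm.toMonoidHom.comp (QuotientGroup.mk' K)) := by
      intro y
      obtain ⟨g, hg⟩ := QuotientGroup.mk_surjective (e y)
      refine ⟨g, ?_⟩
      show e.symm (QuotientGroup.mk g) = y
      rw [hg]
      exact e.symm_apply_apply y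
    have h2 : Group.FG (fac S K) := Group.fg_of_surjective hs
    exact (Group.fg_iff_subgroup_fg _).1 h2
  · -- different factors
    intro K hK K' hK' hne
    have h1 : fac S K' ≤ K := FPR_le hK hne
    refine ⟨fun h => ?_, fun x hx y hy => FPR_com hS hK x hx y (h1 hy)⟩
    rw [← h] at h1
    exact hnot K hK h1
  · -- independence
    rintro _ ⟨K, hK, rfl⟩
    rw [Subgroup.disjoint_def]
    intro x hx hx'
    refine FPR_bot hS K x hx ?_
    have h1 : sSup (fac S '' S \ {fac S K}) ≤ K := by
      refine sSup_le ?_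
      rintro _ ⟨⟨K', hK', rfl⟩, hne⟩
      refine FPR_le hK fun h => hne ?_
      rw [Set.mem_singleton_iff, h]
    exact h1 hx'
  · -- the join
    rw [eq_top_iff]
    intro x _
    have key : ∀ T : Finset (Subgroup M), (∀ K ∈ T, K ∈ S) → ∃ y ∈ sSup (fac S '' S), ∀ K ∈ T, x⁻¹ * y ∈ K := by
      classical
      intro T
      induction T using Finset.induction_on with
      | empty => exact fun _ => ⟨1, Subgroup.one_mem _, fun K hK => absurd hK (Finset.notMem_empty K)⟩
      | insert K₀ T h₀ ih =>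
        intro hT
        obtain ⟨y, hy, hyT⟩ := ih fun K hK => hT K (Finset.mem_insert_of_mem hK)
        have hK₀ := hT K₀ (Finset.mem_insert_self _ _)
        have hKn := hS.nor K₀ hK₀
        obtain ⟨z, hz, k, hk, e⟩ := FPR_dec _ _ (hsup K₀ hK₀) (y⁻¹ * x)
        refine ⟨y * z, Subgroup.mul_mem _ hy ((le_sSup (Set.mem_image_of_mem _ hK₀) : fac S K₀ ≤ _) hz), ?_⟩
        intro K hK
        rcases Finset.mem_insert.1 hK with rfl | hK
        · have h1 : x⁻¹ * (y * z) = (y⁻¹ * x)⁻¹ * z := by group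
          rw [h1, e]
          have h2 : (z * k)⁻¹ * z = k⁻¹ := by group
          rw [h2]
          exact Subgroup.inv_mem _ hk
        · have hne : K ≠ K₀ := fun h => h₀ (h ▸ hK)
          rw [← mul_assoc]
          exact Subgroup.mul_mem _ (hyT K hK) (FPR_le (hT K (Finset.mem_insert_of_mem hK)) hne hz)
    obtain ⟨y, hy, hyS⟩ := key hS.fin.toFinset fun K hK => hS.fin.mem_toFinset.1 hK
    have h1 : x⁻¹ * y ∈ sInf S := by
      rw [Subgroup.mem_sInf]
      exact fun K hK => hyS K (hS.fin.mem_toFinset.2 hK)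
    rw [hS.bot, Subgroup.mem_bot, inv_mul_eq_one] at h1
    rw [h1]
    exact hy

end Pool.Agent.QI
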